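import Pool.Agent.V11227.JonesGn6

/-!
# Braids with almost arbitrary linking numbers: pairwise separation by Vassiliev invariants

Diagrams (starting library `Pool.Agent.H891R2.Jones.Diagram`): `Diagram P` (oriented link diagrams with
marked points `P`, planar or not),
`Diagram.IsClosed`, `Outer m` (the part of an oriented diagram outside a box through which `m` strands
run, with arbitrary directions `O.up`), `Outer.close` (fills the box with vertical strands).  Starting
library `Pool.Agent.W639.RB.Defs`: `Letter m` (the letters `σ_i^{±1}` of the braid group on `m` strands).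

Definitions of the starting library (`Pool.Agent.Y463.SK.Defs`, `Pool.Agent.Y463.RW.Defs`) for words
(lists of letters): `permW w` (the permutation of the strands), `powW w n` (the power `w^n`, `n ∈ ℤ`),
`IsPure w` (`permW w = 1`), `dia O w` (the diagram obtained by drawing `w` in the box of `O` and filling
the rest of the box with vertical strands), `prodW w u` (the product `w_{i_1}^{±1} ⋯ w_{i_n}^{±1}` given
by the sequence `u` of `n` pairs `(i, ±)`).

Definitions of `Pool.Agent.V11227`: `JL.cr w a b` (`JonesLk2`): the number of the letters `σ_i` minus the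
number of the letters `σ_i⁻¹` of `w` at which the strands cross that start at the places `a` and `b`;
`GN.Pr m` (`JonesGn3`): the pairs `a < b` of strands; `GN.IsLk w l` (`JonesGn5`): `cr w a b = 2 l_{ab}`
for all `a < b`, that is, if `w` is pure and all strands run upwards, `l` is the matrix of the linking
numbers of the strands of `w`.

Vassiliev invariants (starting library `Pool.Agent.H832R3.VJ.Defs`): `Dia` (an oriented diagram with
the finite set of its marked points), `Separated d X Y` (some integer valued Vassiliev invariant of
oriented links of order at most `d` has different values on `X` and `Y`), `unknot`; `size X`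
(`Pool.Agent.W705.JR.Vas`): the number of the crossings plus twice the number of the marked points.
`JL.vdia O w` (`JonesLk10`): the diagram `dia O w` as an element of `Dia`; `JL.osize O` (`JonesLk10`): the
number of the crossings of the outside `O` plus twice the number of its marked points.
-/

set_option autoImplicit false

namespace Pool.Agent.Results.MP_31fd3b_gt.GenericLinkingMatrices

open Finset Pool.Agent.H891R2.Jones Pool.Agent.W639.RB Pool.Agent.Y463.SK Pool.Agent.Y463.RW
  Pool.Agent.W705.JR Pool.Agent.H832R3.VJ Pool.Agent.V11227.JL Pool.Agent.V11227.GN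

open Classical in
/-- **Braids with almost arbitrary linking numbers are separated by Vassiliev invariants.**  Let `m ≥ 3`.

(1) There is a set `B` of integral matrices `(l_{ab})`, `a < b`, which contains at most
`2^m m! (2N+1)^(C(m,2)-1)` of the `(2N+1)^C(m,2)` matrices with entries in `[-N, N]`, for every `N`, and
has the following properties (2) and (3).  Every matrix is the linking matrix of a pure braid word, and
every pure braid word has a linking matrix.

(2) Let `O` be the part of an oriented link diagram outside a box through which `m` strands run, with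
arbitrary directions, with `c` crossings and `p` marked points, let `u, w, v` be braid words on `m`
strands and `r ≥ 1` such that `w^r` is pure and its linking matrix is not in `B`.  Let `D(n)`, `n ∈ ℤ`,
be the diagram with the braid `u w^n v` in the box.  Every finite set `Z` of integers with `|n| ≤ N` for
`n ∈ Z` has a subset `Y` with at least `|Z| / (r m!)` elements such that the diagrams `D(n)`, `n ∈ Y`,
are pairwise separated by integer valued Vassiliev invariants of order at most
`4 (c + 2 p + (2m+1)(|u| + N |w| + |v|)) + 1`.

(3) For every `s ≥ 1` there is a constant `C` with the following property.  For `i = 1, …, M` let `O_i`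
be the part of an oriented link diagram outside a box through which `m` strands run, let
`w_{i,1}, …, w_{i,s}` be braid words on `m` strands, of length at most `L`, such that some product `g_i`
of the words `w_{i,j}^{±1}` has a pure power `g_i^r` whose linking matrix is not in `B`, and let `v_i` be
a braid word.  Let `N` be a number with `c_i + 2 p_i + (2m+1) |v_i| ≤ N` for all `i`, `c_i` and `p_i`
being the numbers of the crossings and of the marked points of `O_i`.  Choose `M` sequences of length
`n ≥ 1` independently, the `i`-th one giving a random product `u_i` of `n` of the words `w_{i,j}^{±1}`,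
and draw `u_i v_i` in the box of `O_i`.  Then with probability at least `1 - M² C n^{-e}`,
`e = 1 / (3 · 2^(m! 2^m + 2))`, the `M` diagrams are pairwise separated by integer valued Vassiliev
invariants of order at most `(8m+4) n L + 4 N + 1`.

(4) If `O`, with vertical strands in the box, is a diagram of a link and the permutation of a word `x`
preserves the directions of the strands, then `dia O x` is a diagram of a link. -/
theorem result (m : ℕ) (hm : 3 ≤ m) : ∃ B : Set (Pr m → ℤ),
    (∀ N : ℕ, {l : Pr m → ℤ | l ∈ B ∧ ∀ p, |l p| ≤ N}.Finite ∧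
      {l : Pr m → ℤ | l ∈ B ∧ ∀ p, |l p| ≤ N}.ncard ≤
        2 ^ m * m.factorial * (2 * N + 1) ^ (m.choose 2 - 1)) ∧
    Fintype.card (Pr m) = m.choose 2 ∧
    (∀ l : Pr m → ℤ, ∃ w : List (Letter m), IsPure w ∧ IsLk w l) ∧
    (∀ w : List (Letter m), IsPure w → ∃ l : Pr m → ℤ, IsLk w l) ∧
    (∀ (O : Outer m) (u w v : List (Letter m)) (r : ℕ), 0 < r → IsPure (powW w r) →
      (∃ l, l ∉ B ∧ IsLk (powW w r) l) → ∀ (N : ℕ) (Z : Finset ℤ), (∀ n ∈ Z, n.natAbs ≤ N) →
        ∃ Y ⊆ Z, Z.card ≤ r * m.factorial * Y.card ∧ ∀ n ∈ Y, ∀ n' ∈ Y, n ≠ n' →
          Separated (4 * (osize O + (2 * m + 1) * (u.length + N * w.length + v.length)) + 1)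
            (vdia O (u ++ (powW w n ++ v))) (vdia O (u ++ (powW w n' ++ v)))) ∧
    (∀ s : ℕ, 0 < s → ∃ C : ℝ, 0 < C ∧
      ∀ (M : ℕ) (O : Fin M → Outer m) (w : Fin M → Fin s → List (Letter m)),
        (∀ i, ∃ (k : ℕ) (a : Fin k → Fin s × Bool) (r : ℕ), IsPure (powW (prodW (w i) a) r) ∧
          ∃ l, l ∉ B ∧ IsLk (powW (prodW (w i) a) r) l) →
        ∀ (v : Fin M → List (Letter m)) (L N : ℕ), (∀ i j, (w i j).length ≤ L) →
          (∀ i, osize (O i) + (2 * m + 1) * (v i).length ≤ N) → ∀ n : ℕ, 0 < n →
          ((univ.filter (fun U : Fin M → Fin n → Fin s × Bool => ∃ i j, i ≠ j ∧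
            ¬ Separated ((8 * m + 4) * (n * L) + 4 * N + 1) (vdia (O i) (prodW (w i) (U i) ++ v i))
              (vdia (O j) (prodW (w j) (U j) ++ v j)))).card : ℝ) ≤
              (M:ℝ) ^ 2 * (C * (n : ℝ) ^ (-(1 / (3 * 2 ^ (m.factorial * 2 ^ m + 2))) : ℝ)) *
                ((2 * s : ℝ) ^ n) ^ M) ∧
    ∀ O : Outer m, O.close.IsClosed → ∀ x : List (Letter m), (∀ j, O.up (permW x j) = O.up j) →
      (Pool.Agent.Y463.SK.dia O x).IsClosed := by
  refine ⟨Bad m, bad_count_all m, card_pr, fun l => exists_matrix l, fun w hw => exists_lk w hw,
    fun O u w v r hr hp h N Z hZ => ?_, fun s hs => ?_, fun O hO x hx => dia_closed O hO x hx⟩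
  · obtain ⟨l, hb, hl⟩ := h
    exact vna_pairs (by omega) O u w v r hr hp
      (noAll_good hm (draw O (toN u)) (powW w r) hp l hl hb) N Z hZ
  · have hC : (0:ℝ) < m.factorial * Cst (2 * s : ℝ) (dimB m + 1) := mul_pos (by positivity)
      (lt_of_lt_of_le one_pos (Cst_ge _ _))
    refine ⟨m.factorial * Cst (2 * s : ℝ) (dimB m + 1), hC, fun M O w h v L N hL hN n hn =>
      vna_tuples (by omega) hs O w (fun i => ?_) v L N hL hN n hn _ hC.le rfl⟩
    obtain ⟨k, a, r, hr, l, hb, hl⟩ := h i
    exact ⟨k, a, r, hr, noAll_good hm (O i) _ hr l hl hb⟩

end Pool.Agent.Results.MP_31fd3b_gt.GenericLinkingMatrices
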