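import Pool.Agent.V11227.JonesLk11

/-!
# Powers of linked braids: members which are pairwise separated by Vassiliev invariants

Diagrams (starting library `Pool.Agent.H891R2.Jones.Diagram`): `Diagram P` (oriented link diagrams with
marked points `P`, planar or not), `Diagram.writhe`, `Diagram.IsClosed`, `Outer m` (the part of an
oriented diagram outside a box through which `m` strands run, with arbitrary directions `O.up`),
`Outer.close` (fills the box with vertical strands).  Starting library `Pool.Agent.W639.RB.Defs`:
`Letter m` (the letters `σ_i^{±1}` of the braid group on `m` strands).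

Definitions of the starting library (`Pool.Agent.Y463.SK.Defs`, `Pool.Agent.Y463.RW.Defs`) for words
(lists of letters): `permW w` (the permutation of the strands), `powW w n` (the power `w^n`, `n ∈ ℤ`),
`IsPure w` (`permW w = 1`), `dia O w` (the diagram obtained by drawing `w` in the box of `O` and filling
the rest of the box with vertical strands), `prodW w u` (the product `w_{i_1}^{±1} ⋯ w_{i_n}^{±1}` given
by the sequence `u` of `n` pairs `(i, ±)`).

Vassiliev invariants (starting library `Pool.Agent.H832R3.VJ.Defs`): `Dia` (an oriented diagram with
the finite set of its marked points), `Separated d X Y` (some integer valued Vassiliev invariant of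
oriented links of order at most `d` has different values on `X` and `Y`), `unknot`; `size X`
(`Pool.Agent.W705.JR.Vas`): the number of the crossings plus twice the number of the marked points.

Definitions of `Pool.Agent.V11227`: `JL.cr w a b` (`JonesLk2`): the number of the letters `σ_i` minus the
number of the letters `σ_i⁻¹` of `w` at which the strands cross that start at the places `a` and `b`;
for a pure word this is twice the linking number of these strands if they have the same direction, and
minus twice the linking number otherwise.  `JL.LinkedAt O u w` (`JonesLk8`):
`∑_{a,b} |cr w a b| < |∑_{a,b} c_{a,b} cr w a b|`, where `c_{a,b} = 2` if the strands `a` and `b` (of the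
box, after the braid `u`) have the same direction and `c_{a,b} = -1` otherwise; `JL.Linked O w`
(`JonesLk7`): the same condition for the empty word `u`.  `JP.positive w`, `JP.negative w`
(`JonesPos3`): the numbers of the letters `σ_i` and `σ_i⁻¹` of `w`.  `JP.Mostly O u w r`
(`JonesPos3`): three times the contribution `c` of `w^r` to the writhe of the diagram `dia O (u w^r)` is
larger than `r (positive w + 3 negative w)`, or `-3 c` is larger than `r (negative w + 3 positive w)`.  `JL.vdia O w`
(`JonesLk10`): the diagram `dia O w` as an element of `Dia`; `JL.osize O` (`JonesLk10`): the number of the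
crossings of the outside `O` plus twice the number of its marked points.
-/

set_option autoImplicit false

namespace Pool.Agent.Results.MP_31fd3b_gt.LinkedPowers

open Finset Pool.Agent.H891R2.Jones Pool.Agent.W639.RB Pool.Agent.Y463.SK Pool.Agent.W705.JR
  Pool.Agent.H832R3.VJ Pool.Agent.V11227.JP Pool.Agent.V11227.JL

open Classical in
/-- **Powers of linked braids.**  Let `O` be the part of an oriented link diagram outside a box through
which `m ≥ 1` strands run, with arbitrary directions, with `c` crossings and `p` marked points, let
`u, w, v` be braid words on `m` strands and `r ≥ 1` such that `w^r` is pure and satisfies the linking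
condition `LinkedAt O u (w^r)`.  Let `D(n)`, `n ∈ ℤ`, be the diagram with the braid `u w^n v` in the box.

(1) Every finite set `Z` of integers with `|n| ≤ N` for `n ∈ Z` has a subset `Y` with at least
`|Z| / (r m!)` elements such that the diagrams `D(n)`, `n ∈ Y`, are pairwise separated by integer valued
Vassiliev invariants of order at most `4 (c + 2 p + (2m+1)(|u| + N |w| + |v|)) + 1`.

(2) For every oriented link diagram `X`, all but at most `r m!` of the diagrams `D(n)` are separated from
`X` by Vassiliev invariants of order at most
`2 (c + 2 p + (2m+1)(|u| + |n| |w| + |v|) + size X) + 1`.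

(3) The linking condition holds if all the linking numbers `± cr w a b` (the sign is `+` for strands with
the same direction, `-` otherwise) have the same sign `ε` or are zero and two strands with the same
direction have a nonzero linking number; for `w^r` if `r > 0`, all strands run upwards and `w` has more
than three times as many positive as negative letters or the other way round; and if `Mostly O u w r`
holds.

(4) If all strands run upwards and the diagram `O`, with vertical strands in the box, is a diagram of a
link, then so are all the diagrams `dia O x`. -/
theorem result (m : ℕ) (hm : 0 < m) (O : Outer m) :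
    (∀ (u w v : List (Letter m)) (r : ℕ), 0 < r → IsPure (powW w r) → LinkedAt O u (powW w r) →
      (∀ (N : ℕ) (Z : Finset ℤ), (∀ n ∈ Z, n.natAbs ≤ N) →
        ∃ Y ⊆ Z, Z.card ≤ r * m.factorial * Y.card ∧ ∀ n ∈ Y, ∀ n' ∈ Y, n ≠ n' →
          Separated (4 * (osize O + (2 * m + 1) * (u.length + N * w.length + v.length)) + 1)
            (vdia O (u ++ (powW w n ++ v))) (vdia O (u ++ (powW w n' ++ v)))) ∧
      ∀ X : Dia,
        {n : ℤ | ¬ Separated (2 * (osize O + (2 * m + 1) * (u.length + n.natAbs * w.length + v.length) +
          size X) + 1) (vdia O (u ++ (powW w n ++ v))) X}.Finite ∧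
        {n : ℤ | ¬ Separated (2 * (osize O + (2 * m + 1) * (u.length + n.natAbs * w.length + v.length) +
          size X) + 1) (vdia O (u ++ (powW w n ++ v))) X}.ncard ≤ r * m.factorial) ∧
    ((∀ (u w : List (Letter m)) (ε : ℤ), ε = 1 ∨ ε = -1 →
        (∀ a b, 0 ≤ ε * ((if O.up (permW u a) = O.up (permW u b) then 1 else -1) * cr w a b)) →
        (∃ a b, O.up (permW u a) = O.up (permW u b) ∧ cr w a b ≠ 0) → LinkedAt O u w) ∧
      (∀ (u w : List (Letter m)) (r : ℕ), 0 < r → (∀ j, O.up j = true) →
        (3 * negative w < positive w ∨ 3 * positive w < negative w) → LinkedAt O u (powW w r)) ∧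
      (∀ (u w : List (Letter m)) (r : ℕ), Mostly O u w r → LinkedAt O u (powW w r))) ∧
    ((∀ j, O.up j = true) → O.close.IsClosed →
      ∀ x : List (Letter m), (Pool.Agent.Y463.SK.dia O x).IsClosed) :=
  ⟨fun u w v r hr hp h => ⟨fun N Z hZ => vas_pairs hm O u w v r hr hp h N Z hZ, fun X =>
      vas_one hm O u w v r hr hp h X⟩,
    ⟨fun u w ε hε h h' => linkedAt_of_sign O u w ε hε h h', fun u w r hr hO h =>
      linkedAt_of_letters O (fun i j => by rw [hO i, hO j]) u w r hr h, fun u w r h =>
      linkedAt_of_mostly O u w r h⟩,
    fun hO hcl x => letters_closed O hO hcl x⟩

end Pool.Agent.Results.MP_31fd3b_gt.LinkedPowers
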