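import Pool.Agent.V11227.JonesLk11

/-!
# Random elements of groups with linked pure braids are pairwise separated by Vassiliev invariants

Diagrams (starting library `Pool.Agent.H891R2.Jones.Diagram`): `Diagram P` (oriented link diagrams with
marked points `P`, planar or not), `Diagram.writhe`, `Diagram.IsClosed`, `Outer m` (the part of an
oriented diagram outside a box through which `m` strands run, with arbitrary directions `O.up`),
`Outer.close` (fills the box with vertical strands).  Starting library `Pool.Agent.W639.RB.Defs`:
`Letter m` (the letters `σ_i^{±1}` of the braid group on `m` strands).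

Definitions of the starting library (`Pool.Agent.Y463.SK.Defs`, `Pool.Agent.Y463.RW.Defs`) for words
(lists of letters): `permW w` (the permutation of the strands), `powW w n` (the power `w^n`, `n ∈ ℤ`),
`IsPure w` (`permW w = 1`), `dia O w` (the diagram obtained by drawing `w` in the box of `O` and filling
the rest of the box with vertical strands), `prodW w u` (the product `w_{i_1}^{±1} ⋯ w_{i_n}^{±1}` given
by the sequence `u` of `n` pairs `(i, ±)`).

Vassiliev invariants (starting library `Pool.Agent.H832R3.VJ.Defs`): `Dia` (an oriented diagram with
the finite set of its marked points), `Separated d X Y` (some integer valued Vassiliev invariant of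
oriented links of order at most `d` has different values on `X` and `Y`), `unknot`; `size X`
(`Pool.Agent.W705.JR.Vas`): the number of the crossings plus twice the number of the marked points.

Definitions of `Pool.Agent.V11227`: `JL.cr w a b` (`JonesLk2`): the number of the letters `σ_i` minus the
number of the letters `σ_i⁻¹` of `w` at which the strands cross that start at the places `a` and `b`;
for a pure word this is twice the linking number of these strands if they have the same direction, and
minus twice the linking number otherwise.  `JL.LinkedAt O u w` (`JonesLk8`):
`∑_{a,b} |cr w a b| < |∑_{a,b} c_{a,b} cr w a b|`, where `c_{a,b} = 2` if the strands `a` and `b` (of the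
box, after the braid `u`) have the same direction and `c_{a,b} = -1` otherwise; `JL.Linked O w`
(`JonesLk7`): the same condition for the empty word `u`.  `JP.positive w`, `JP.negative w`
(`JonesPos3`): the numbers of the letters `σ_i` and `σ_i⁻¹` of `w`.  `JP.Mostly O u w r`
(`JonesPos3`): three times the contribution `c` of `w^r` to the writhe of the diagram `dia O (u w^r)` is
larger than `r (positive w + 3 negative w)`, or `-3 c` is larger than `r (negative w + 3 positive w)`.  `JL.vdia O w`
(`JonesLk10`): the diagram `dia O w` as an element of `Dia`; `JL.osize O` (`JonesLk10`): the number of the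
crossings of the outside `O` plus twice the number of its marked points.
-/

set_option autoImplicit false

namespace Pool.Agent.Results.MP_31fd3b_gt.LinkedSubgroupTuples

open Finset Pool.Agent.H891R2.Jones Pool.Agent.W639.RB Pool.Agent.Y463.SK Pool.Agent.Y463.RW
  Pool.Agent.W705.JR Pool.Agent.H832R3.VJ Pool.Agent.V11227.JP Pool.Agent.V11227.JL

open Classical in
/-- **Several random elements of groups with linked pure elements.**  For all `m, s ≥ 1` there is a
constant `C`, depending only on `m` and `s`, with the following property.

For `i = 1, …, M` let `O_i` be an oriented link diagram with an open box through which `m` strands run,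
with arbitrary directions, let `w_{i,1}, …, w_{i,s}` be braid words on `m` strands, of length at most `L`,
such that some product `g_i` of the words `w_{i,j}^{±1}` has a power `g_i^r` which is pure and satisfies
the linking condition `Linked O_i (g_i^r)`, and let `v_i` be a braid word.  Let `N` be a number with
`c_i + 2 p_i + (2m+1) |v_i| ≤ N` for all `i`, `c_i` and `p_i` being the numbers of the crossings and of
the marked points of `O_i`.  Choose `M` sequences of length `n ≥ 1` independently, the `i`-th one giving
a random product `u_i` of `n` of the words `w_{i,j}^{±1}`, and draw `u_i v_i` in the box of `O_i`.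

Then with probability at least `1 - M² C n^{-e}`, `e = 1 / (3 · 2^(m! 2^m + 2))`, the `M` diagrams are
pairwise separated by integer valued Vassiliev invariants of order at most `(8m+4) n L + 4 N + 1`.

The linking condition holds if all the linking numbers of the strands of the pure braid `g^r` have the
same sign or are zero and two strands with the same direction have a nonzero linking number; if all
strands run upwards and `g` has more than three times as many positive as negative letters or the other
way round, it holds for some `r` such that `g^r` is pure.  If all strands run upwards and the diagram `O`,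
with vertical strands in the box, is a diagram of a link, then so are all the diagrams `dia O x`. -/
theorem result (m s : ℕ) (hm : 0 < m) (hs : 0 < s) : (∃ C : ℝ, 0 < C ∧
    ∀ (M : ℕ) (O : Fin M → Outer m) (w : Fin M → Fin s → List (Letter m)),
      (∀ i, ∃ (l : ℕ) (a : Fin l → Fin s × Bool) (r : ℕ),
        IsPure (powW (prodW (w i) a) r) ∧ Linked (O i) (powW (prodW (w i) a) r)) →
      ∀ (v : Fin M → List (Letter m)) (L N : ℕ), (∀ i j, (w i j).length ≤ L) →
        (∀ i, osize (O i) + (2 * m + 1) * (v i).length ≤ N) → ∀ n : ℕ, 0 < n →
        ((univ.filter (fun U : Fin M → Fin n → Fin s × Bool => ∃ i j, i ≠ j ∧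
          ¬ Separated ((8 * m + 4) * (n * L) + 4 * N + 1) (vdia (O i) (prodW (w i) (U i) ++ v i))
            (vdia (O j) (prodW (w j) (U j) ++ v j)))).card : ℝ) ≤
            (M:ℝ) ^ 2 * (C * (n : ℝ) ^ (-(1 / (3 * 2 ^ (m.factorial * 2 ^ m + 2))) : ℝ)) *
              ((2 * s : ℝ) ^ n) ^ M) ∧
    (∀ (O : Outer m) (g : List (Letter m)),
      (∀ (r : ℕ) (ε : ℤ), ε = 1 ∨ ε = -1 →
        (∀ i j, 0 ≤ ε * ((if O.up i = O.up j then 1 else -1) * cr (powW g r) i j)) →
        (∃ i j, O.up i = O.up j ∧ cr (powW g r) i j ≠ 0) → Linked O (powW g r)) ∧
      ((∀ j, O.up j = true) → (3 * negative g < positive g ∨ 3 * positive g < negative g) →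
        ∃ r : ℕ, IsPure (powW g r) ∧ Linked O (powW g r)) ∧
      ((∀ j, O.up j = true) → O.close.IsClosed →
        ∀ x : List (Letter m), (Pool.Agent.Y463.SK.dia O x).IsClosed)) := by
  have hC : (0:ℝ) < m.factorial * Cst (2 * s : ℝ) (dimB m + 1) := mul_pos (by positivity)
    (lt_of_lt_of_le one_pos (Cst_ge _ _))
  refine ⟨⟨m.factorial * Cst (2 * s : ℝ) (dimB m + 1), hC, fun M O w h v L N hL hN n hn =>
    vas_tuples hm hs O w h v L N hL hN n hn _ hC.le rfl⟩, fun O g =>
      ⟨fun r ε hε h1 h2 => linked_of_sign O _ ε hε h1 h2, fun hO h => ?_, fun hO hcl x =>
      letters_closed O hO hcl x⟩⟩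
  obtain ⟨r, hr0, hr⟩ := exists_pure g
  exact ⟨r, hr, linked_of_letters O (fun i j => by rw [hO i, hO j]) _ r hr0 h⟩

end Pool.Agent.Results.MP_31fd3b_gt.LinkedSubgroupTuples
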