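import Pool.Agent.H953R3.Q2.Fin2

/-!
# Vassiliev invariants of order two and links of plane graphs

Diagrams: `Pool.Agent.H891R2.Jones.Diagram` (`Crossing`, `Diagram`: oriented link diagrams with
marked points; `Diagram.IsClosed`) and `Pool.Agent.H891R2.MT.Defs` (`Ribbon k`: a ribbon graph with
`k` edges, given by the rotation system on its `2 k` darts; `Ribbon.verts`, `Ribbon.comps`;
`Ribbon.Planar`: connected and Euler's formula, a connected plane graph; `Ribbon.link n`: the
unoriented link diagram which is the boundary of the surface made of one disc for every vertex and,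
for every edge `e`, a band with `n e` half twists, that is, a row of `|n e|` crossings;
`Orients D U`: `D` is the unoriented diagram `U` with directions).

Vassiliev invariants: `Pool.Agent.H832R3.VJ.Defs` (`Dia`: an oriented diagram with the finite set of
its marked points; `IsVassiliev n v`: `v` is an invariant of oriented links of order at most `n`;
`Separated d X Y`: some integer valued Vassiliev invariant of order at most `d` has different values
on `X` and `Y`).

`Pool.Agent.H953R3.Q2.Fin2`: `Balanced M F A`: for every edge `e ∈ F` the set `A e` contains either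
no even numbers or at least `M`, and either no odd numbers or at least `M`.
-/

set_option autoImplicit false

namespace Pool.Agent.Results.MP_31fd3b_gt.SecondOrderPairs

open Finset LaurentPolynomial Pool.Agent.H891R2.Jones Pool.Agent.H891R2.MT Pool.Agent.H832R3.VJ
  Pool.Agent.H953R3.Q2

/-- For some directions of the links `U(n)` of `Γ` and `U(n')` of `Γ'`, all Vassiliev invariants of
order at most two have the same values on the two oriented links. -/
def AlikePair {k k' : ℕ} (Γ : Ribbon k) (Γ' : Ribbon k') (n : Fin k → ℤ) (n' : Fin k' → ℤ) : Prop :=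
  ∃ (D : Diagram (Ribbon.Pt n)) (D' : Diagram (Ribbon.Pt n')), Orients D (Γ.link n) ∧
    D.IsClosed ∧ Orients D' (Γ'.link n') ∧ D'.IsClosed ∧
    ¬ Separated 2 ⟨_, inferInstance, D⟩ ⟨_, inferInstance, D'⟩

/-- For some directions of the link `U(n)` of `Γ`, all Vassiliev invariants of order at most two
have the same values on it and on `X`. -/
def Alike {k : ℕ} (Γ : Ribbon k) (n : Fin k → ℤ) (X : Dia) : Prop :=
  ∃ D : Diagram (Ribbon.Pt n), Orients D (Γ.link n) ∧ D.IsClosed ∧
    ¬ Separated 2 ⟨_, inferInstance, D⟩ X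

theorem AlikePair.inv {k k' : ℕ} {Γ : Ribbon k} {Γ' : Ribbon k'} {n : Fin k → ℤ} {n' : Fin k' → ℤ}
    (hk : 0 < k) (hk' : 0 < k') (h : AlikePair Γ Γ' n n') :
    kap (Γ.link n).std.bracket = kap (Γ'.link n').std.bracket ∧
      moment 0 (Γ.link n).std.bracket ^ 2 = moment 0 (Γ'.link n').std.bracket ^ 2 := by
  obtain ⟨D, D', hD, -, hD', -, h⟩ := h
  have h4 := (same_of' h).inv
  have h5 := fPoly_inv Γ hk n D hD
  have h6 := fPoly_inv Γ' hk' n' D' hD'
  exact ⟨by rw [← h5.1, h4.1, h6.1], by rw [← h5.2, h4.2, h6.2]⟩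

open Classical in
/-- one pair of members of a tuple -/
theorem count_one {m : ℕ} (k : Fin m → ℕ) (Γ : (i : Fin m) → Ribbon (k i))
    (hΓ : ∀ i, (Γ i).Planar) (hv : ∀ i, (Γ i).verts ≤ k i) (F : (i : Fin m) → Finset (Fin (k i)))
    (hF : ∀ i, (F i)ᶜ.card + (Γ i).comps (F i)ᶜ = (Γ i).verts) (M : ℕ)
    (A : (i : Fin m) → Fin (k i) → Finset ℤ) (hA : ∀ i, Balanced M (F i) (A i)) (i j : Fin m)
    (hij : i ≠ j) :
    M * #{n ∈ Fintype.piFinset (fun i => Fintype.piFinset (A i)) |
      AlikePair (Γ i) (Γ j) (n i) (n j)} ≤ 2 * ∏ l, ∏ e, (A l e).card := by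
  set Bad := ({n ∈ Fintype.piFinset (fun i => Fintype.piFinset (A i)) |
      AlikePair (Γ i) (Γ j) (n i) (n j)}) with hBad
  have hmem : ∀ n ∈ Bad, (∀ l, n l ∈ Fintype.piFinset (A l)) ∧
      kap ((Γ i).link (n i)).std.bracket = kap ((Γ j).link (n j)).std.bracket ∧
      moment 0 ((Γ i).link (n i)).std.bracket ^ 2 =
        moment 0 ((Γ j).link (n j)).std.bracket ^ 2 := by
    intro n hn
    rw [hBad, Finset.mem_filter, Fintype.mem_piFinset] at hn
    exact ⟨hn.1, hn.2.inv (pos_of_planar _ (hΓ i)) (pos_of_planar _ (hΓ j))⟩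
  clear_value Bad
  have h1 := Finset.card_eq_sum_card_fiberwise (s := Bad)
    (t := Fintype.piFinset (fun l : {l : Fin m // l ≠ i} => Fintype.piFinset (A l)))
    (f := fun n (l : {l : Fin m // l ≠ i}) => n l) (by
      intro n hn
      rw [Finset.mem_coe, Fintype.mem_piFinset]
      exact fun l => (hmem n hn).1 l)
  have h2 : ∀ r ∈ Fintype.piFinset (fun l : {l : Fin m // l ≠ i} => Fintype.piFinset (A l)),
      M * #{n ∈ Bad | (fun (l : {l : Fin m // l ≠ i}) => n l) = r} ≤ 2 * ∏ e, (A i e).card := by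
    intro r _
    refine le_trans (Nat.mul_le_mul_left _ ?_) (count_kap (Γ i) (hΓ i) (hv i) (F i) (hF i)
      (kap ((Γ j).link (r ⟨j, hij.symm⟩)).std.bracket)
      (moment 0 ((Γ j).link (r ⟨j, hij.symm⟩)).std.bracket ^ 2) (A i) M (hA i).zmod)
    refine Finset.card_le_card_of_injOn (fun n => n i) ?_ ?_
    · intro n hn
      rw [Finset.mem_coe, Finset.mem_filter] at hn
      obtain ⟨hn, h3⟩ := hn
      subst h3
      obtain ⟨a1, a2, a3⟩ := hmem n hn
      rw [Finset.mem_coe, Finset.mem_filter]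
      exact ⟨a1 i, a2, a3⟩
    · intro n hn n' hn' h
      rw [Finset.mem_coe, Finset.mem_filter] at hn hn'
      have h3 := hn.2.trans hn'.2.symm
      funext l
      by_cases hl : l = i
      · subst hl
        exact h
      · exact congrFun h3 ⟨l, hl⟩
  rw [h1, Finset.mul_sum]
  refine (Finset.sum_le_sum h2).trans (le_of_eq ?_)
  rw [Finset.sum_const, smul_eq_mul, Fintype.card_piFinset]
  have h3 : ∏ l, ∏ e, (A l e).card =
      (∏ e, (A i e).card) * ∏ l : {l : Fin m // l ≠ i}, ∏ e, (A l e).card := by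
    exact (Fintype.prod_eq_mul_prod_subtype_ne (fun l => ∏ e, (A l e).card) i)
  rw [h3]
  simp only [Fintype.card_piFinset]
  ring

open Classical in
/-- many members -/
theorem count_many {m : ℕ} (k : Fin m → ℕ) (Γ : (i : Fin m) → Ribbon (k i))
    (hΓ : ∀ i, (Γ i).Planar) (hv : ∀ i, (Γ i).verts ≤ k i) (F : (i : Fin m) → Finset (Fin (k i)))
    (hF : ∀ i, (F i)ᶜ.card + (Γ i).comps (F i)ᶜ = (Γ i).verts) (M : ℕ)
    (A : (i : Fin m) → Fin (k i) → Finset ℤ) (hA : ∀ i, Balanced M (F i) (A i)) :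
    M * #{n ∈ Fintype.piFinset (fun i => Fintype.piFinset (A i)) |
      ∃ i j, i < j ∧ AlikePair (Γ i) (Γ j) (n i) (n j)} ≤
      m * (m - 1) * ∏ l, ∏ e, (A l e).card := by
  have hsub : ({n ∈ Fintype.piFinset (fun i => Fintype.piFinset (A i)) |
      ∃ i j, i < j ∧ AlikePair (Γ i) (Γ j) (n i) (n j)}) ⊆
      (Finset.univ : Finset (Fin m)).biUnion fun j => (Finset.Iio j).biUnion fun i =>
        ({n ∈ Fintype.piFinset (fun i => Fintype.piFinset (A i)) |
          AlikePair (Γ i) (Γ j) (n i) (n j)}) := by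
    intro n hn
    rw [Finset.mem_filter] at hn
    obtain ⟨hn, i, j, hij, h⟩ := hn
    rw [Finset.mem_biUnion]
    refine ⟨j, Finset.mem_univ _, ?_⟩
    rw [Finset.mem_biUnion]
    exact ⟨i, Finset.mem_Iio.2 hij, Finset.mem_filter.2 ⟨hn, h⟩⟩
  have hsum : ∑ j : Fin m, 2 * (j : ℕ) = m * (m - 1) := by
    rw [← Finset.mul_sum, Fin.sum_univ_eq_sum_range (fun j => j) m, mul_comm,
      Finset.sum_range_id_mul_two]
  calc M * _ ≤ M * ∑ j : Fin m, ∑ i ∈ Finset.Iio j,
        #{n ∈ Fintype.piFinset (fun i => Fintype.piFinset (A i)) |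
          AlikePair (Γ i) (Γ j) (n i) (n j)} := by
        refine Nat.mul_le_mul_left _ ((Finset.card_le_card hsub).trans ?_)
        refine Finset.card_biUnion_le.trans (Finset.sum_le_sum fun j _ => ?_)
        exact Finset.card_biUnion_le
    _ = ∑ j : Fin m, ∑ i ∈ Finset.Iio j,
        M * #{n ∈ Fintype.piFinset (fun i => Fintype.piFinset (A i)) |
          AlikePair (Γ i) (Γ j) (n i) (n j)} := by
        rw [Finset.mul_sum]
        exact Finset.sum_congr rfl fun j _ => Finset.mul_sum _ _ _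
    _ ≤ ∑ j : Fin m, ∑ _i ∈ Finset.Iio j, 2 * ∏ l, ∏ e, (A l e).card := by
        refine Finset.sum_le_sum fun j _ => Finset.sum_le_sum fun i hi => ?_
        exact count_one k Γ hΓ hv F hF M A hA i j (Finset.mem_Iio.1 hi).ne
    _ = m * (m - 1) * ∏ l, ∏ e, (A l e).card := by
        rw [← hsum, Finset.sum_mul]
        refine Finset.sum_congr rfl fun j _ => ?_
        rw [Finset.sum_const, Fin.card_Iio, smul_eq_mul]
        ring

open Classical in
/-- one member of a tuple and a fixed diagram -/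
theorem count_fixed {m : ℕ} (k : Fin m → ℕ) (Γ : (i : Fin m) → Ribbon (k i))
    (hΓ : ∀ i, (Γ i).Planar) (hv : ∀ i, (Γ i).verts ≤ k i) (F : (i : Fin m) → Finset (Fin (k i)))
    (hF : ∀ i, (F i)ᶜ.card + (Γ i).comps (F i)ᶜ = (Γ i).verts) (M : ℕ)
    (A : (i : Fin m) → Fin (k i) → Finset ℤ) (hA : ∀ i, Balanced M (F i) (A i)) (i : Fin m)
    (X : Dia) :
    M * #{n ∈ Fintype.piFinset (fun i => Fintype.piFinset (A i)) | Alike (Γ i) (n i) X} ≤
      2 * ∏ l, ∏ e, (A l e).card := by
  set Bad := ({n ∈ Fintype.piFinset (fun i => Fintype.piFinset (A i)) |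
      Alike (Γ i) (n i) X}) with hBad
  have hmem : ∀ n ∈ Bad, (∀ l, n l ∈ Fintype.piFinset (A l)) ∧ Alike (Γ i) (n i) X := by
    intro n hn
    rw [hBad, Finset.mem_filter, Fintype.mem_piFinset] at hn
    exact hn
  clear_value Bad
  have h1 := Finset.card_eq_sum_card_fiberwise (s := Bad)
    (t := Fintype.piFinset (fun l : {l : Fin m // l ≠ i} => Fintype.piFinset (A l)))
    (f := fun n (l : {l : Fin m // l ≠ i}) => n l) (by
      intro n hn
      rw [Finset.mem_coe, Fintype.mem_piFinset]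
      exact fun l => (hmem n hn).1 l)
  have h2 : ∀ r ∈ Fintype.piFinset (fun l : {l : Fin m // l ≠ i} => Fintype.piFinset (A l)),
      M * #{n ∈ Bad | (fun (l : {l : Fin m // l ≠ i}) => n l) = r} ≤ 2 * ∏ e, (A i e).card := by
    intro r _
    refine le_trans (Nat.mul_le_mul_left _ ?_)
      (count_sep (Γ i) (hΓ i) (hv i) (F i) (hF i) X M (A i) (hA i))
    refine Finset.card_le_card_of_injOn (fun n => n i) ?_ ?_
    · intro n hn
      rw [Finset.mem_coe, Finset.mem_filter] at hn
      rw [Finset.mem_coe, Finset.mem_filter]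
      exact ⟨(hmem n hn.1).1 i, (hmem n hn.1).2⟩
    · intro n hn n' hn' h
      rw [Finset.mem_coe, Finset.mem_filter] at hn hn'
      have h3 := hn.2.trans hn'.2.symm
      funext l
      by_cases hl : l = i
      · subst hl
        exact h
      · exact congrFun h3 ⟨l, hl⟩
  rw [h1, Finset.mul_sum]
  refine (Finset.sum_le_sum h2).trans (le_of_eq ?_)
  rw [Finset.sum_const, smul_eq_mul, Fintype.card_piFinset]
  have h3 : ∏ l, ∏ e, (A l e).card =
      (∏ e, (A i e).card) * ∏ l : {l : Fin m // l ≠ i}, ∏ e, (A l e).card := by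
    exact (Fintype.prod_eq_mul_prod_subtype_ne (fun l => ∏ e, (A l e).card) i)
  rw [h3]
  simp only [Fintype.card_piFinset]
  ring

/-- Two of the links `U_i(n_i)`, or one of them and one of the `X_t`, are for some directions not
separated by Vassiliev invariants of order at most two. -/
def SomeAlike {m s : ℕ} (k : Fin m → ℕ) (Γ : (i : Fin m) → Ribbon (k i)) (X : Fin s → Dia)
    (n : (i : Fin m) → Fin (k i) → ℤ) : Prop :=
  (∃ i j, i < j ∧ AlikePair (Γ i) (Γ j) (n i) (n j)) ∨ ∃ i t, Alike (Γ i) (n i) (X t)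

open Classical in
/-- everything together -/
theorem count_all {m s : ℕ} (k : Fin m → ℕ) (Γ : (i : Fin m) → Ribbon (k i))
    (hΓ : ∀ i, (Γ i).Planar) (hv : ∀ i, (Γ i).verts ≤ k i) (X : Fin s → Dia)
    (F : (i : Fin m) → Finset (Fin (k i)))
    (hF : ∀ i, (F i)ᶜ.card + (Γ i).comps (F i)ᶜ = (Γ i).verts) (M : ℕ)
    (A : (i : Fin m) → Fin (k i) → Finset ℤ) (hA : ∀ i, Balanced M (F i) (A i)) :
    M * #{n ∈ Fintype.piFinset (fun i => Fintype.piFinset (A i)) | SomeAlike k Γ X n} ≤
      (m * (m - 1) + 2 * m * s) * ∏ i, ∏ e, (A i e).card := by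
  have hsub : ({n ∈ Fintype.piFinset (fun i => Fintype.piFinset (A i)) | SomeAlike k Γ X n}) ⊆
      ({n ∈ Fintype.piFinset (fun i => Fintype.piFinset (A i)) |
        ∃ i j, i < j ∧ AlikePair (Γ i) (Γ j) (n i) (n j)}) ∪
      (Finset.univ : Finset (Fin m × Fin s)).biUnion fun z =>
        ({n ∈ Fintype.piFinset (fun i => Fintype.piFinset (A i)) |
          Alike (Γ z.1) (n z.1) (X z.2)}) := by
    intro n hn
    rw [Finset.mem_filter] at hn
    rw [Finset.mem_union, Finset.mem_filter, Finset.mem_biUnion]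
    rcases hn.2 with h | ⟨i, t, h⟩
    · exact Or.inl ⟨hn.1, h⟩
    · exact Or.inr ⟨(i, t), Finset.mem_univ _, Finset.mem_filter.2 ⟨hn.1, h⟩⟩
  calc M * _ ≤ M * (#{n ∈ Fintype.piFinset (fun i => Fintype.piFinset (A i)) |
        ∃ i j, i < j ∧ AlikePair (Γ i) (Γ j) (n i) (n j)} + ∑ z : Fin m × Fin s,
        #{n ∈ Fintype.piFinset (fun i => Fintype.piFinset (A i)) |
          Alike (Γ z.1) (n z.1) (X z.2)}) := by
        refine Nat.mul_le_mul_left _ ((Finset.card_le_card hsub).trans ?_)
        exact (Finset.card_union_le _ _).trans (Nat.add_le_add_left Finset.card_biUnion_le _)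
    _ ≤ m * (m - 1) * ∏ i, ∏ e, (A i e).card +
        ∑ _z : Fin m × Fin s, 2 * ∏ i, ∏ e, (A i e).card := by
        rw [Nat.mul_add, Finset.mul_sum]
        exact Nat.add_le_add (count_many k Γ hΓ hv F hF M A hA)
          (Finset.sum_le_sum fun z _ => count_fixed k Γ hΓ hv F hF M A hA z.1 (X z.2))
    _ = _ := by
        rw [Finset.sum_const, Finset.card_univ, Fintype.card_prod, Fintype.card_fin,
          Fintype.card_fin, smul_eq_mul]
        ring

open Classical in
/-- Let `Γ_1, …, Γ_m` be connected plane graphs which are not trees, `Γ_i` with `k_i` edges, and let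
`D_i(n)`, `n ∈ ℤ^{k_i}`, be the link diagram with `|n e|` crossings on the edge `e` of `Γ_i`.  Let
`F_i` be a set of edges of `Γ_i` such that the other edges form a forest, and let `A_i e ⊂ ℤ` be
finite sets such that, for `e ∈ F_i`, the even (odd) elements of `A_i e` are none or at least `M`.
Let `X_1, …, X_s` be any diagrams.  If `n_1, …, n_m` are chosen independently at random in the boxes
`∏ A_1 e, …, ∏ A_m e`, then with probability at least `1 - (m (m - 1) + 2 m s) / M` the links
`D_1(n_1), …, D_m(n_m)`, with any directions, are separated from each other and from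
`X_1, …, X_s` by Vassiliev invariants of order at most two.  In particular this holds for all but
the proportion `(m (m - 1) + 2 m s) / N` of the tuples with `|n_i e| ≤ N`. -/
theorem result {m s : ℕ} (k : Fin m → ℕ) (Γ : (i : Fin m) → Ribbon (k i))
    (hΓ : ∀ i, (Γ i).Planar) (hv : ∀ i, (Γ i).verts ≤ k i) (X : Fin s → Dia) :
    (∀ (F : (i : Fin m) → Finset (Fin (k i))),
      (∀ i, (F i)ᶜ.card + (Γ i).comps (F i)ᶜ = (Γ i).verts) →
      ∀ (M : ℕ) (A : (i : Fin m) → Fin (k i) → Finset ℤ), (∀ i, Balanced M (F i) (A i)) →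
      M * #{n ∈ Fintype.piFinset (fun i => Fintype.piFinset (A i)) | SomeAlike k Γ X n} ≤
        (m * (m - 1) + 2 * m * s) * ∏ i, ∏ e, (A i e).card) ∧
    ∀ N : ℕ, N * {n : (i : Fin m) → Fin (k i) → ℤ | (∀ i e, |n i e| ≤ N) ∧
        SomeAlike k Γ X n}.ncard ≤ (m * (m - 1) + 2 * m * s) * ∏ i, (2 * N + 1) ^ k i := by
  refine ⟨fun F hF M A hA => count_all k Γ hΓ hv X F hF M A hA, fun N => ?_⟩
  have h := count_all k Γ hΓ hv X (fun _ => Finset.univ) (fun i => empty_forest (Γ i)) N
    (fun _ _ => Finset.Icc (-(N : ℤ)) N) (fun i => balanced_box N Finset.univ)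
  have hc : ∏ i : Fin m, ∏ _e : Fin (k i), (Finset.Icc (-(N : ℤ)) N).card =
      ∏ i, (2 * N + 1) ^ k i := by
    refine Finset.prod_congr rfl fun i _ => ?_
    rw [Finset.prod_const, Finset.card_univ, Fintype.card_fin, Int.card_Icc]
    congr 1
    omega
  rw [hc] at h
  have hset : {n : (i : Fin m) → Fin (k i) → ℤ | (∀ i e, |n i e| ≤ N) ∧ SomeAlike k Γ X n} =
    (({n ∈ Fintype.piFinset (fun i : Fin m => Fintype.piFinset
        (fun _ : Fin (k i) => Finset.Icc (-(N : ℤ)) N)) | SomeAlike k Γ X n} :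
      Finset ((i : Fin m) → Fin (k i) → ℤ)) : Set ((i : Fin m) → Fin (k i) → ℤ)) := by
    ext n
    simp only [Set.mem_ofPred_eq, Finset.coe_filter, Fintype.mem_piFinset, Finset.mem_Icc,
      abs_le]
  rw [hset, Set.ncard_coe_finset]
  exact h

end Pool.Agent.Results.MP_31fd3b_gt.SecondOrderPairs
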